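import Pool.Agent.H923R2.FP.Stubs
import Pool.Agent.H553R2.FP_LIM

set_option autoImplicit false

open Filter Topology
open Pool.Agent.H923R2.FP

noncomputable section

namespace Pool.Agent.H923R2.FP.T_LIM2

open Pool.Agent.H923R2.FP.T_LIM

variable {A Q R : Type} [CStarAlgebra A]
variable [Ring Q] [StarRing Q] [Algebra ℂ Q] [Ring R] [StarRing R] [Algebra ℂ R]

theorem seq2 [TopologicalSpace.SeparableSpace A] (τ : A →ₗ[ℂ] ℂ) (π : Q →⋆ₐ[ℂ] A)
    (ρ : R →⋆ₐ[ℂ] A) (s : A) (h0 : GS τ π ρ s π s)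
    (hst : ∀ (π' : Q →⋆ₐ[ℂ] A) (s' : A), Law τ (vl π ρ s) (vl π' ρ s') → star s' = s' →
      Gen π' ρ s' → Stg τ π' ρ s') (y : ℕ → A) (c : ℝ) (hc : 0 < c) (hc1 : c ≤ 1) :
    ∃ X : ℕ → St τ π ρ s, (X 0).p = π ∧
      (∀ n x, ‖(X (n + 1)).p x - (X n).p x‖ ≤ (c * (1 / 2) ^ n) * ‖(X n).p x‖) ∧
      (∀ n, ∀ f ∈ (X n).L, ‖evx (vl (X (n + 1)).p ρ 0) f - evx (vl (X n).p ρ 0) f‖ ≤
        (1 / 2) ^ n) ∧
      (∀ n, ∀ f ∈ (X n).L, f ∈ (X (n + 1)).L) ∧
      (∀ n, ∀ j ≤ n, ∃ f ∈ (X (n + 1)).L, ‖y j - evx (vl (X (n + 1)).p ρ 0) f‖ ≤ (1 / 2) ^ n) := by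
  have hstep : ∀ (n : ℕ) (S : St τ π ρ s), ∃ S' : St τ π ρ s,
      (∀ x, ‖S'.p x - S.p x‖ ≤ (c * (1 / 2) ^ n) * ‖S.p x‖) ∧
      (∀ f ∈ S.L, ‖evx (vl S'.p ρ 0) f - evx (vl S.p ρ 0) f‖ ≤ (1 / 2) ^ n) ∧
      (∀ f ∈ S.L, f ∈ S'.L) ∧
      (∀ j ≤ n, ∃ f ∈ S'.L, ‖y j - evx (vl S'.p ρ 0) f‖ ≤ (1 / 2) ^ n) := by
    intro n S
    obtain ⟨π'', s'', L', h1, h2, h3, h4', h5'⟩ := step τ π ρ s hst S.p S.t S.good S.L S.ns
      ((List.range (n + 1)).map y) (c * (1 / 2) ^ n) (by positivity)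
    have hcn : c * (1 / 2 : ℝ) ^ n ≤ (1 / 2) ^ n := by
      have : (0 : ℝ) ≤ (1 / 2) ^ n := by positivity
      nlinarith
    have h4 : ∀ f ∈ S.L, ‖evx (vl π'' ρ 0) f - evx (vl S.p ρ 0) f‖ ≤ (1 / 2) ^ n :=
      fun f hf => (h4' f hf).trans hcn
    have h5 : ∀ z ∈ (List.range (n + 1)).map y, ∃ f ∈ L', ‖z - evx (vl π'' ρ 0) f‖ ≤ (1 / 2) ^ n := by
      intro z hz
      obtain ⟨f, hf, hf'⟩ := h5' z hz
      exact ⟨f, hf, hf'.trans hcn⟩
    refine ⟨⟨π'', s'', S.L ++ L', h1, ?_⟩, h3, h4, ?_, ?_⟩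
    · intro f hf
      rcases List.mem_append.1 hf with hf | hf
      · exact S.ns f hf
      · exact h2 f hf
    · intro f hf
      exact List.mem_append_left _ hf
    · intro j hj
      obtain ⟨f, hf, hf'⟩ := h5 (y j) (List.mem_map.2 ⟨j, List.mem_range.2 (by omega), rfl⟩)
      exact ⟨f, List.mem_append_right _ hf, hf'⟩
  choose nx hnx1 hnx2 hnx3 hnx4 using hstep
  let X : ℕ → St τ π ρ s := fun n =>
    Nat.rec (⟨π, s, [], h0, by simp⟩ : St τ π ρ s) (fun n S => nx n S) n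
  have hX : ∀ n, X (n + 1) = nx n (X n) := fun n => rfl
  refine ⟨X, rfl, ?_, ?_, ?_, ?_⟩
  · intro n x
    rw [hX]
    exact hnx1 n (X n) x
  · intro n
    rw [hX]
    exact hnx2 n (X n)
  · intro n
    rw [hX]
    exact hnx3 n (X n)
  · intro n
    rw [hX]
    exact hnx4 n (X n)

/-- the limit with closeness -/
theorem lim2 [TopologicalSpace.SeparableSpace A] (τ : A →ₗ[ℂ] ℂ) (π : Q →⋆ₐ[ℂ] A)
    (ρ : R →⋆ₐ[ℂ] A) (s : A) (hτ : FTS τ) (hs : star s = s) (hgen : Gen π ρ s)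
    (hst : ∀ (π' : Q →⋆ₐ[ℂ] A) (s' : A), Law τ (vl π ρ s) (vl π' ρ s') → star s' = s' →
      Gen π' ρ s' → Stg τ π' ρ s') (ε₀ : ℝ) (hε₀ : 0 < ε₀) :
    ∃ σ : Q →⋆ₐ[ℂ] A, (∀ w : List (Lt Q R), (∀ z ∈ w, z.isS = false) →
      τ (ev (vl σ ρ 0) w) = τ (ev (vl π ρ 0) w)) ∧ Gen0 σ ρ ∧
      ∀ x, ‖σ x - π x‖ ≤ ε₀ * ‖π x‖ := by
  set c : ℝ := min 1 (ε₀ / 16) with hcdef
  have hc : 0 < c := lt_min one_pos (by positivity)
  have hc1 : c ≤ 1 := min_le_left _ _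
  have hc2 : c ≤ ε₀ / 16 := min_le_right _ _
  have h0 : GS τ π ρ s π s := ⟨fun w => rfl, hs, hgen⟩
  obtain ⟨y, hy⟩ := TopologicalSpace.exists_dense_seq A
  obtain ⟨X, hX0, hX1, hX2, hX3, hX4⟩ := seq2 τ π ρ s h0 hst y c hc hc1
  -- norm bounds
  have hb : ∀ n x, ‖(X n).p x‖ ≤ Real.exp (2 - 2 * (1 / 2) ^ n) * ‖π x‖ := by
    intro n x
    induction n with
    | zero => rw [hX0]; simp
    | succ n ih =>
      have h1 : ‖(X (n + 1)).p x‖ ≤ (1 + (1 / 2) ^ n) * ‖(X n).p x‖ := by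
        have h2 : ‖(X (n + 1)).p x - (X n).p x‖ ≤ (1 / 2) ^ n * ‖(X n).p x‖ := by
          refine (hX1 n x).trans (mul_le_mul_of_nonneg_right ?_ (norm_nonneg _))
          have : (0 : ℝ) ≤ (1 / 2) ^ n := by positivity
          nlinarith
        have h3 : ‖(X (n + 1)).p x‖ ≤ ‖(X (n + 1)).p x - (X n).p x‖ + ‖(X n).p x‖ := by
          have := norm_add_le ((X (n + 1)).p x - (X n).p x) ((X n).p x)
          rwa [sub_add_cancel] at this
        linarith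
      have h4 : (1 + (1 / 2 : ℝ) ^ n) ≤ Real.exp ((1 / 2) ^ n) := by
        have := Real.add_one_le_exp ((1 / 2 : ℝ) ^ n)
        linarith
      have h5 : Real.exp (2 - 2 * (1 / 2 : ℝ) ^ (n + 1)) =
          Real.exp ((1 / 2) ^ n) * Real.exp (2 - 2 * (1 / 2) ^ n) := by
        rw [← Real.exp_add]
        congr 1
        rw [pow_succ]
        ring
      rw [h5, mul_assoc]
      exact h1.trans (mul_le_mul h4 ih (norm_nonneg _) (Real.exp_pos _).le)
  have hb2 : ∀ n x, ‖(X n).p x‖ ≤ Real.exp 2 * ‖π x‖ := by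
    intro n x
    refine (hb n x).trans (mul_le_mul_of_nonneg_right (Real.exp_le_exp.2 ?_) (norm_nonneg _))
    have : (0 : ℝ) ≤ 2 * (1 / 2) ^ n := by positivity
    linarith
  have hd : ∀ x n, dist ((X n).p x) ((X (n + 1)).p x) ≤
      c * (Real.exp 2 * ‖π x‖) * (1 / 2) ^ n := by
    intro x n
    rw [dist_comm, dist_eq_norm]
    refine (hX1 n x).trans ?_
    calc c * (1 / 2) ^ n * ‖(X n).p x‖ ≤ c * (1 / 2) ^ n * (Real.exp 2 * ‖π x‖) :=
          mul_le_mul_of_nonneg_left (hb2 n x) (by positivity)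
      _ = c * (Real.exp 2 * ‖π x‖) * (1 / 2) ^ n := by ring
  have hlim : ∀ x, ∃ a, Tendsto (fun n => (X n).p x) atTop (𝓝 a) := by
    intro x
    apply cauchySeq_tendsto_of_complete
    exact cauchySeq_of_le_geometric (1 / 2) (c * (Real.exp 2 * ‖π x‖)) (by norm_num) (hd x)
  choose σ0 hσ0 using hlim
  let σ : Q →⋆ₐ[ℂ] A :=
    { toFun := σ0
      map_one' := tendsto_nhds_unique (hσ0 1) (by simp)
      map_mul' := fun a b => tendsto_nhds_unique (hσ0 (a * b)) (by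
        simp only [map_mul]
        exact (hσ0 a).mul (hσ0 b))
      map_zero' := tendsto_nhds_unique (hσ0 0) (by simp)
      map_add' := fun a b => tendsto_nhds_unique (hσ0 (a + b)) (by
        simp only [map_add]
        exact (hσ0 a).add (hσ0 b))
      commutes' := fun c => tendsto_nhds_unique (hσ0 (algebraMap ℂ Q c)) (by
        simp only [AlgHomClass.commutes]
        exact tendsto_const_nhds)
      map_star' := fun a => tendsto_nhds_unique (hσ0 (star a)) (by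
        simp only [map_star]
        exact (hσ0 a).star) }
  have hσ : ∀ x, Tendsto (fun n => (X n).p x) atTop (𝓝 (σ x)) := hσ0
  have hvl : ∀ z : Lt Q R, Tendsto (fun n => vl (X n).p ρ 0 z) atTop (𝓝 (vl σ ρ 0 z)) := by
    intro z
    cases z with
    | q x => exact hσ x
    | r x => exact tendsto_const_nhds
    | s => exact tendsto_const_nhds
  have hcont : Continuous τ := by
    have : Continuous (τ.mkContinuous 1 (fun x => by rw [one_mul]; exact hτ.bound x)) :=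
      ContinuousLinearMap.continuous _
    exact this
  refine ⟨σ, ?_, ?_, ?_⟩
  · intro w hw
    have h1 : Tendsto (fun n => τ (ev (vl (X n).p ρ 0) w)) atTop (𝓝 (τ (ev (vl σ ρ 0) w))) :=
      (hcont.tendsto _).comp (tend_ev hvl w)
    have h2 : ∀ n, τ (ev (vl (X n).p ρ 0) w) = τ (ev (vl π ρ 0) w) := by
      intro n
      rw [ev_noS _ _ 0 (X n).t w hw, (X n).good.1 w, ev_noS _ _ s 0 w hw]
    simp only [h2] at h1
    exact tendsto_nhds_unique h1 tendsto_const_nhds |>.symm ▸ rfl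
  · intro a ε hε
    obtain ⟨j, hj⟩ : ∃ j, ‖a - y j‖ < ε / 2 := by
      obtain ⟨j, hb⟩ := hy.exists_dist_lt a (half_pos hε)
      exact ⟨j, by rwa [dist_eq_norm] at hb⟩
    obtain ⟨N, hN⟩ : ∃ N : ℕ, (1 / 2 : ℝ) ^ N < ε / 4 :=
      exists_pow_lt_of_lt_one (by positivity) (by norm_num)
    let n := max N j
    have hn : (1 / 2 : ℝ) ^ n < ε / 4 :=
      (pow_le_pow_of_le_one (by norm_num) (by norm_num) (le_max_left _ _)).trans_lt hN
    obtain ⟨f, hf, hfy⟩ := hX4 n j (le_max_right _ _)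
    have hmem : ∀ k, f ∈ (X (n + 1 + k)).L := by
      intro k
      induction k with
      | zero => exact hf
      | succ k ih => exact hX3 _ f ih
    refine ⟨f, (X (n + 1)).ns f hf, ?_⟩
    have hg : ∀ k, dist (evx (vl (X (n + 1 + k)).p ρ 0) f) (evx (vl (X (n + 1 + (k + 1))).p ρ 0) f) ≤
        (1 / 2) ^ (n + 1) * (1 / 2) ^ k := by
      intro k
      rw [dist_comm, dist_eq_norm, ← pow_add]
      exact hX2 _ f (hmem k)
    have ht : Tendsto (fun k => evx (vl (X (n + 1 + k)).p ρ 0) f) atTop (𝓝 (evx (vl σ ρ 0) f)) := by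
      have := tend_evx hvl f
      have h2 := this.comp (tendsto_add_atTop_nat (n + 1))
      refine h2.congr fun k => ?_
      simp only [Function.comp]
      rw [add_comm]
    have h3 := dist_le_of_le_geometric_of_tendsto₀ (1 / 2) ((1 / 2) ^ (n + 1)) (by norm_num) hg ht
    rw [add_zero, dist_eq_norm] at h3
    have h4 : (1 / 2 : ℝ) ^ (n + 1) / (1 - 1 / 2) = (1 / 2) ^ n := by
      rw [pow_succ]; ring
    rw [h4] at h3
    calc ‖a - evx (vl σ ρ 0) f‖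
        = ‖(a - y j) + (y j - evx (vl (X (n + 1)).p ρ 0) f) +
          (evx (vl (X (n + 1)).p ρ 0) f - evx (vl σ ρ 0) f)‖ := by congr 1; abel
      _ ≤ ‖a - y j‖ + ‖y j - evx (vl (X (n + 1)).p ρ 0) f‖ +
          ‖evx (vl (X (n + 1)).p ρ 0) f - evx (vl σ ρ 0) f‖ := norm_add₃_le
      _ < ε := by linarith
  · intro x
    have h3 := dist_le_of_le_geometric_of_tendsto₀ (1 / 2) (c * (Real.exp 2 * ‖π x‖))
      (by norm_num) (hd x) (hσ x)
    rw [hX0, dist_comm, dist_eq_norm] at h3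
    refine h3.trans ?_
    have he : Real.exp 2 ≤ 8 := by
      have h1 := Real.exp_one_lt_d9
      have h2 : Real.exp 2 = Real.exp 1 * Real.exp 1 := by
        rw [← Real.exp_add]; norm_num
      rw [h2]
      nlinarith [Real.exp_pos 1]
    have h4 : c * (Real.exp 2 * ‖π x‖) / (1 - 1 / 2) = 2 * c * Real.exp 2 * ‖π x‖ := by ring
    rw [h4]
    apply mul_le_mul_of_nonneg_right _ (norm_nonneg _)
    nlinarith [Real.exp_pos 2]

end Pool.Agent.H923R2.FP.T_LIM2
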