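import Pool.Agent.H923R2.FZ.Stubs0
import Pool.Agent.H898R5.FZ.LIM2a

set_option autoImplicit false

open Filter Topology
open Pool.Agent.H923R2.FP

noncomputable section

namespace Pool.Agent.H923R2.FP.T_LIM2

theorem t_LIM2 : S_LIM2 := by
  intro A Q R _ _ _ _ _ _ _ _ τ π ρ s hτ hs hgen hst ε hε
  obtain ⟨σ, h1, h2, h3⟩ := lim2 τ π ρ s hτ hs hgen hst ε hε
  exact ⟨σ, h3, h1, h2⟩

end Pool.Agent.H923R2.FP.T_LIM2
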